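import Pool.Agent.H51.IR.Topo

set_option linter.style.longLine false

/-! Renormalizability through compact boxes. -/

namespace Pool.Agent.H51.IR

open Polynomial Filter Topology Set

/-- the conditions on the box `L` which are stable under perturbation of `c` -/
def Tset (p : ℕ) (L : Set ℂ) : Set ℂ :=
  {c | ∃ W : Set ℂ, IsOpen W ∧ IsConnected W ∧ IsConnected Wᶜ ∧ Bornology.IsBounded W ∧ L ⊆ W ∧
    (∀ z ∈ frontier L, (quad c)^[p] z ∉ closure W) ∧
    (∀ q ∈ L ×ˢ L, ∀ j ∈ Finset.Ico 1 p, (quad c)^[j] q.1 + (quad c)^[j] q.2 ≠ 0)}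

/-- the critical orbit of the `p`-th iterate stays in the box -/
def Dset (p : ℕ) (L : Set ℂ) : Set ℂ :=
  {c | 0 ∈ interior L ∧ ∀ n : ℕ, 1 ≤ n → (quad c)^[n * p] 0 ∈ interior L}

theorem eval_eq_fun (c : ℂ) (p : ℕ) : (fun z => (iterPoly c p).eval z) = fun z => (quad c)^[p] z := by
  funext z
  exact eval_iterPoly c z p

theorem eval_orbit (c : ℂ) (p n : ℕ) :
    (iterPoly c p).eval ((quad c)^[n * p] 0) = (quad c)^[(n + 1) * p] 0 := by
  rw [eval_iterPoly, ← Function.iterate_add_apply, show (n + 1) * p = p + n * p by ring]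

theorem isRenorm_of_box {p : ℕ} (hp : 2 ≤ p) {L : Set ℂ} (hL : IsCompact L) (hneg : ∀ z ∈ L, -z ∈ L)
    {c : ℂ} (hT : c ∈ Tset p L) (hD : c ∈ Dset p L) : IsRenorm p c := by
  classical
  obtain ⟨W, hWo, hWc, hWcc, hWb, hLW, hfr, hprod⟩ := hT
  obtain ⟨hD0, hDn⟩ := hD
  have hg := degree_iterPoly_pos c p
  have hp1 : 1 ≤ p := by omega
  have hfr' : ∀ z ∈ frontier L, (iterPoly c p).eval z ∉ closure W := by
    intro z hz
    rw [eval_iterPoly]
    exact hfr z hz
  have hLi : interior L ⊆ L := interior_subset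
  set g := iterPoly c p with hgdef
  set U := interior L ∩ (fun z => g.eval z) ⁻¹' W with hU
  have hUL : U = L ∩ (fun z => g.eval z) ⁻¹' W := inter_eq hL hfr'
  have hit : ∀ n : ℕ, g.eval ((quad c)^[n * p] 0) = (quad c)^[(n + 1) * p] 0 := eval_orbit c p
  have h0U : (0 : ℂ) ∈ U := by
    refine ⟨hD0, hLW (hLi ?_)⟩
    have := hit 0
    simp only [zero_mul, Function.iterate_zero, id_eq, zero_add] at this
    show g.eval 0 ∈ interior L
    rw [this]
    exact hDn 1 le_rfl
  have hiU : interior U = U := (isOpen_interior.inter (hWo.preimage g.continuous)).interior_eq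
  have hUo : IsOpen U := isOpen_interior.inter (hWo.preimage g.continuous)
  have himg : (fun z => g.eval z) '' U = W :=
    image_part hg hL hfr' hWc.isPreconnected hUo subset_rfl inter_subset_right ⟨0, h0U⟩
  have hUsub : U ⊆ L := fun z hz => hLi hz.1
  have hclU : closure U ⊆ L := closure_minimal hUsub hL.isClosed
  have hUneg : ∀ z ∈ U, -z ∈ U := by
    intro z hz
    rw [hUL] at hz ⊢
    refine ⟨hneg z hz.1, ?_⟩
    show g.eval (-z) ∈ W
    rw [hgdef, eval_iterPoly, iterate_neg c z p hp1, ← eval_iterPoly]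
    exact hz.2
  have hcof : ∀ x ∈ L, ∀ y ∈ L, x ∉ (cof c y p).roots := by
    intro x hx y hy h
    obtain ⟨j, h1, h2, h3⟩ := (mem_roots_cof c x y p).1 h
    exact hprod (x, y) ⟨hx, hy⟩ j (Finset.mem_Ico.2 ⟨h1, h2⟩) h3
  refine ⟨hp, U, h0U, ?_, ?_, ?_⟩
  · refine ⟨hUo, ⟨⟨0, h0U⟩, ?_⟩, ⟨?_, ?_⟩, hL.isBounded.subset hUsub, ?_, ?_, ?_, ?_⟩
    · refine isPreconnected_part hg hL hfr' hWo hWc.isPreconnected h0U ?_
      intro x hx hx2
      by_contra hx0
      have h1 : (g - C ((quad c)^[p] 0)).eval x = 0 := by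
        rw [eval_sub, eval_C, hx2, hgdef, eval_iterPoly, sub_self]
      rw [hgdef, factor c 0 p hp1] at h1
      simp only [eval_mul, eval_sub, eval_X, eval_C, neg_zero, sub_zero, mul_eq_zero] at h1
      have h2 : (cof c 0 p).eval x = 0 := by
        rcases h1 with (h1 | h1) | h1
        · exact absurd h1 hx0
        · exact absurd h1 hx0
        · exact h1
      exact hcof x hx 0 (hLi hD0) ((mem_roots (cof_ne_zero c 0 p)).2 h2)
    · by_contra h
      rw [not_nonempty_iff_eq_empty, compl_empty_iff] at h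
      refine not_isBounded_compl (W := (∅ : Set ℂ)) Bornology.isBounded_empty ?_
      rw [compl_empty, ← h]
      exact hL.isBounded.subset hUsub
    · exact isPreconnected_part_compl hg hL hfr' hWo hWb hWcc
    · rw [himg]
      exact hWcc
    · rw [himg, hWo.interior_eq]
      exact hclU.trans hLW
    · intro K hK hKc
      rw [himg] at hK
      have : U ∩ (fun z => g.eval z) ⁻¹' K = L ∩ (fun z => g.eval z) ⁻¹' K := by
        rw [hUL]
        ext z
        constructor
        · rintro ⟨h1, h2⟩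
          exact ⟨h1.1, h2⟩
        · rintro ⟨h1, h2⟩
          exact ⟨⟨h1, hK h2⟩, h2⟩
      rw [this]
      exact hL.inter_right (hKc.isClosed.preimage g.continuous)
    · rintro _ ⟨y, hy, rfl⟩
      have h1 := card_filter c y p hp1 U hy (hUneg y hy)
      have h3 : (fun z => g.eval z) y = (quad c)^[p] y := eval_iterPoly c y p
      rw [h3]
      convert h1 using 1
      symm
      rw [Nat.add_eq_left, Multiset.card_eq_zero]
      refine (@Multiset.filter_eq_nil _ _ (fun a => Classical.propDecidable (a ∈ U)) _).2 ?_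
      intro x hx hxU
      exact hcof x (hUsub hxU) y (hUsub hy) hx
  · intro n hn
    refine ⟨hDn n hn, hLW (hLi ?_)⟩
    show g.eval ((quad c)^[n * p] 0) ∈ interior L
    rw [hit n]
    exact hDn (n + 1) (by omega)
  · intro z hz hz2
    have hzL := hclU hz
    rw [derivative_iterPoly, mul_eq_zero, Finset.prod_eq_zero_iff] at hz2
    rcases hz2 with h | ⟨j, hj, h⟩
    · exact absurd h (pow_ne_zero _ two_ne_zero)
    · rcases Nat.eq_zero_or_pos j with rfl | hj0
      · simpa using h
      · exfalso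
        refine hprod (z, z) ⟨hzL, hzL⟩ j (Finset.mem_Ico.2 ⟨hj0, Finset.mem_range.1 hj⟩) ?_
        rw [h, add_zero]

section converse

variable {g : ℂ[X]} {U : Set ℂ}

theorem IsQuadLike.closure_inter (h : IsQuadLike g U) :
    closure U ∩ (fun z => g.eval z) ⁻¹' ((fun z => g.eval z) '' U) ⊆ U := by
  rintro z ⟨hz, hz2⟩
  obtain ⟨u, hu, hlim⟩ := mem_closure_iff_seq_limit.1 hz
  have h1 : Tendsto (fun n => g.eval (u n)) atTop (𝓝 (g.eval z)) :=
    (g.continuous.tendsto z).comp hlim
  have h2 := h.proper (insert (g.eval z) (range fun n => g.eval (u n))) (by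
    rintro w (rfl | ⟨n, rfl⟩)
    · exact hz2
    · exact ⟨u n, hu n, rfl⟩) h1.isCompact_insert_range
  have h3 : ∀ n, u n ∈ U ∩ (fun z => g.eval z) ⁻¹' (insert (g.eval z) (range fun n => g.eval (u n))) :=
    fun n => ⟨hu n, Or.inr ⟨n, rfl⟩⟩
  exact (h2.isClosed.mem_of_tendsto hlim (Eventually.of_forall h3)).1

theorem IsQuadLike.neg_mem {c : ℂ} {p : ℕ} (hp : 1 ≤ p) {U : Set ℂ} (h : IsQuadLike (iterPoly c p) U)
    (h0 : (0 : ℂ) ∈ U) : ∀ z ∈ U, -z ∈ U := by
  have hV : IsPreconnected (U ∪ (fun z : ℂ => -z) '' U) := by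
    refine IsPreconnected.union 0 h0 ⟨0, h0, neg_zero⟩ h.isConnected.isPreconnected ?_
    exact h.isConnected.isPreconnected.image _ continuous_neg.continuousOn
  have h1 : U ∪ (fun z : ℂ => -z) '' U ⊆ U := by
    refine hV.subset_of_closure_inter_subset h.isOpen ⟨0, Or.inl h0, h0⟩ ?_
    rintro z ⟨hz, hz2⟩
    refine h.closure_inter ⟨hz, ?_⟩
    rcases hz2 with hz2 | ⟨w, hw, rfl⟩
    · exact ⟨z, hz2, rfl⟩
    · refine ⟨w, hw, ?_⟩
      simp only [eval_iterPoly]
      exact (iterate_neg c w p hp).symm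
  intro z hz
  exact h1 (Or.inr ⟨z, hz, rfl⟩)

theorem IsQuadLike.sum_ne {c : ℂ} {p : ℕ} (hp : 1 ≤ p) {U : Set ℂ} (h : IsQuadLike (iterPoly c p) U)
    (h0 : (0 : ℂ) ∈ U) {x y : ℂ} (hx : x ∈ U) (hy : y ∈ U) {j : ℕ} (hj : 1 ≤ j) (hjp : j < p) :
    (quad c)^[j] x + (quad c)^[j] y ≠ 0 := by
  classical
  intro hcon
  have h1 := h.degree_two _ ⟨y, hy, rfl⟩
  have h2 := card_filter c y p hp U hy (h.neg_mem hp h0 y hy)
  simp only [eval_iterPoly] at h1
  rw [h1] at h2
  have h3 : ((cof c y p).roots.filter (· ∈ U)).card = 0 := by omega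
  rw [Multiset.card_eq_zero, Multiset.filter_eq_nil] at h3
  exact h3 x ((mem_roots_cof c x y p).2 ⟨j, hj, hjp, hcon⟩) hx

end converse

/-- the centre of a ball of the countable family -/
noncomputable def ctr (i : ℕ) : ℂ := TopologicalSpace.denseSeq ℂ i

/-- the radius of a ball of the countable family -/
noncomputable def rad (j : ℕ) : ℝ := 1 / ((j : ℝ) + 1)

/-- finite symmetric unions of closed balls -/
noncomputable def Lset (s : Finset (ℕ × ℕ)) : Set ℂ :=
  ⋃ q ∈ s, (Metric.closedBall (ctr q.1) (rad q.2) ∪ Metric.closedBall (-ctr q.1) (rad q.2))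

theorem isCompact_Lset (s : Finset (ℕ × ℕ)) : IsCompact (Lset s) :=
  s.finite_toSet.isCompact_biUnion fun _ _ =>
    (isCompact_closedBall _ _).union (isCompact_closedBall _ _)

theorem neg_mem_closedBall {x z : ℂ} {r : ℝ} (h : z ∈ Metric.closedBall x r) :
    -z ∈ Metric.closedBall (-x) r := by
  rw [Metric.mem_closedBall, dist_eq_norm] at h ⊢
  have : -z - -x = -(z - x) := by ring
  rwa [this, norm_neg]

theorem neg_mem_Lset (s : Finset (ℕ × ℕ)) : ∀ z ∈ Lset s, -z ∈ Lset s := by
  intro z hz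
  simp only [Lset, mem_iUnion, mem_union] at hz ⊢
  obtain ⟨q, hq, h | h⟩ := hz
  · exact ⟨q, hq, Or.inr (neg_mem_closedBall h)⟩
  · refine ⟨q, hq, Or.inl ?_⟩
    have := neg_mem_closedBall h
    rwa [neg_neg] at this

theorem exists_Lset {K U : Set ℂ} (hK : IsCompact K) (hU : IsOpen U) (hKU : K ⊆ U)
    (hneg : ∀ z ∈ U, -z ∈ U) : ∃ s : Finset (ℕ × ℕ), K ⊆ interior (Lset s) ∧ Lset s ⊆ U := by
  have h1 : ∀ z ∈ K, ∃ q : ℕ × ℕ, z ∈ Metric.ball (ctr q.1) (rad q.2) ∧
      Metric.closedBall (ctr q.1) (rad q.2) ⊆ U := by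
    intro z hz
    obtain ⟨ε, hε, hεU⟩ := Metric.isOpen_iff.1 hU z (hKU hz)
    obtain ⟨j, hj⟩ := exists_nat_one_div_lt (half_pos hε)
    have hr : 0 < rad j := by
      unfold rad
      positivity
    obtain ⟨i, hi⟩ := (TopologicalSpace.denseRange_denseSeq ℂ).exists_dist_lt z hr
    refine ⟨(i, j), ?_, ?_⟩
    · rw [Metric.mem_ball]
      exact hi
    · intro w hw
      apply hεU
      rw [Metric.mem_closedBall] at hw
      rw [Metric.mem_ball]
      have h3 : rad j < ε / 2 := hj
      have h4 := dist_triangle w (ctr i) z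
      have h5 : dist (ctr i) z < rad j := by
        rw [dist_comm]
        exact hi
      have hw' : dist w (ctr i) ≤ rad j := hw
      linarith
  choose! q hq hqU using h1
  obtain ⟨t, htK, ht⟩ := hK.elim_nhds_subcover (fun z => Metric.ball (ctr (q z).1) (rad (q z).2))
    (fun z hz => Metric.isOpen_ball.mem_nhds (hq z hz))
  classical
  refine ⟨t.image q, ?_, ?_⟩
  · intro z hz
    have h2 := ht hz
    simp only [mem_iUnion] at h2
    obtain ⟨x, hx, hzx⟩ := h2
    refine interior_maximal (s := Lset (t.image q)) (fun w hw => ?_) Metric.isOpen_ball hzx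
    simp only [Lset, mem_iUnion]
    exact ⟨q x, Finset.mem_image.2 ⟨x, hx, rfl⟩, Or.inl (Metric.ball_subset_closedBall hw)⟩
  · intro w hw
    simp only [Lset, mem_iUnion, mem_union] at hw
    obtain ⟨r, hr, hw⟩ := hw
    obtain ⟨x, hx, rfl⟩ := Finset.mem_image.1 hr
    rcases hw with hw | hw
    · exact hqU x (htK x hx) hw
    · have : -w ∈ Metric.closedBall (ctr (q x).1) (rad (q x).2) := by
        have := neg_mem_closedBall hw
        rwa [neg_neg] at this
      have h3 := hneg _ (hqU x (htK x hx) this)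
      rwa [neg_neg] at h3

theorem exists_box {p : ℕ} {c : ℂ} (h : IsRenorm p c) :
    ∃ s : Finset (ℕ × ℕ), c ∈ Tset p (Lset s) ∧ c ∈ Dset p (Lset s) := by
  obtain ⟨hp, U, h0, hU, hn, -⟩ := h
  have hp1 : 1 ≤ p := by omega
  have hg := degree_iterPoly_pos c p
  have himo : IsOpen ((fun z => (iterPoly c p).eval z) '' U) := isOpenMap_eval hg _ hU.isOpen
  have hcl : closure U ⊆ (fun z => (iterPoly c p).eval z) '' U := by
    have := hU.closure_subset
    rwa [himo.interior_eq] at this
  have hcc : IsCompact (closure U) := Metric.isCompact_of_isClosed_isBounded isClosed_closure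
    hU.isBounded.closure
  have hK := hU.proper _ hcl hcc
  obtain ⟨s, hs1, hs2⟩ := exists_Lset hK hU.isOpen inter_subset_left (hU.neg_mem hp1 h0)
  have hit := eval_orbit c p
  refine ⟨s, ⟨U, hU.isOpen, hU.isConnected, hU.isConnected_compl, hU.isBounded, hs2, ?_, ?_⟩,
    ?_, ?_⟩
  · intro z hz hz2
    have hzL : z ∈ Lset s := (isCompact_Lset s).isClosed.frontier_subset hz
    rw [(isCompact_Lset s).isClosed.frontier_eq] at hz
    refine hz.2 (hs1 ⟨hs2 hzL, ?_⟩)
    show (iterPoly c p).eval z ∈ closure U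
    rw [eval_iterPoly]
    exact hz2
  · rintro ⟨x, y⟩ ⟨hx, hy⟩ j hj
    rw [Finset.mem_Ico] at hj
    exact hU.sum_ne hp1 h0 (hs2 hx) (hs2 hy) hj.1 hj.2
  · refine hs1 ⟨h0, subset_closure ?_⟩
    have := hit 0
    simp only [zero_mul, Function.iterate_zero, id_eq, zero_add] at this
    show (iterPoly c p).eval 0 ∈ U
    rw [this]
    exact hn 1 le_rfl
  · intro n hn1
    refine hs1 ⟨hn n hn1, subset_closure ?_⟩
    show (iterPoly c p).eval ((quad c)^[n * p] 0) ∈ U
    rw [hit n]
    exact hn (n + 1) (by omega)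

theorem isOpen_Tset (p : ℕ) {L : Set ℂ} (hL : IsCompact L) : IsOpen (Tset p L) := by
  rw [isOpen_iff_eventually]
  rintro c ⟨W, hWo, hWc, hWcc, hWb, hLW, hfr, hprod⟩
  have hfrc : IsCompact (frontier L) :=
    hL.of_isClosed_subset isClosed_frontier hL.isClosed.frontier_subset
  have h1 : ∀ᶠ c' in 𝓝 c, ∀ z ∈ frontier L, (quad c')^[p] z ∉ closure W := by
    refine hfrc.eventually_forall_of_forall_eventually fun z hz => ?_
    have h3 : ContinuousAt (fun q : ℂ × ℂ => (quad q.1)^[p] q.2) (c, z) :=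
      (continuous_iterate p).continuousAt
    exact h3.preimage_mem_nhds (isClosed_closure.isOpen_compl.mem_nhds (hfr z hz))
  have h2 : ∀ᶠ c' in 𝓝 c, ∀ q ∈ L ×ˢ L, ∀ j ∈ Finset.Ico 1 p,
      (quad c')^[j] q.1 + (quad c')^[j] q.2 ≠ 0 := by
    refine (hL.prod hL).eventually_forall_of_forall_eventually fun q hq => ?_
    rw [Filter.eventually_all_finset]
    intro j hj
    have h3 : Continuous fun r : ℂ × (ℂ × ℂ) => (quad r.1)^[j] r.2.1 + (quad r.1)^[j] r.2.2 :=
      ((continuous_iterate j).comp (continuous_fst.prodMk (continuous_fst.comp continuous_snd))).add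
        ((continuous_iterate j).comp (continuous_fst.prodMk (continuous_snd.comp continuous_snd)))
    exact h3.continuousAt.eventually_ne (hprod q hq j hj)
  filter_upwards [h1, h2] with c' h3 h4
  exact ⟨W, hWo, hWc, hWcc, hWb, hLW, h3, h4⟩

theorem measurableSet_Dset (p : ℕ) (L : Set ℂ) : MeasurableSet (Dset p L) := by
  have : Dset p L = {_c | (0 : ℂ) ∈ interior L} ∩
      ⋂ n : ℕ, ⋂ _ : 1 ≤ n, (fun c => (quad c)^[n * p] 0) ⁻¹' interior L := by
    ext c
    simp only [Dset, mem_ofPred_eq, mem_inter_iff, mem_iInter, mem_preimage]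
  rw [this]
  refine (MeasurableSet.const _).inter (MeasurableSet.iInter fun n => MeasurableSet.iInter fun _ => ?_)
  exact (isOpen_interior.preimage (continuous_iterate_left (n * p) 0)).measurableSet

/-- the set of parameters which are renormalizable with period `p` is measurable -/
theorem measurableSet_isRenorm (p : ℕ) : MeasurableSet {c | IsRenorm p c} := by
  by_cases hp : 2 ≤ p
  · have : {c | IsRenorm p c} = ⋃ s : Finset (ℕ × ℕ), Tset p (Lset s) ∩ Dset p (Lset s) := by
      ext c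
      simp only [mem_ofPred_eq, mem_iUnion, mem_inter_iff]
      constructor
      · exact exists_box
      · rintro ⟨s, h1, h2⟩
        exact isRenorm_of_box hp (isCompact_Lset s) (neg_mem_Lset s) h1 h2
    rw [this]
    exact MeasurableSet.iUnion fun s => (isOpen_Tset p (isCompact_Lset s)).measurableSet.inter
      (measurableSet_Dset p _)
  · have : {c | IsRenorm p c} = ∅ := by
      ext c
      simp only [mem_ofPred_eq, mem_empty_iff_false, iff_false]
      intro h
      exact hp h.1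
    rw [this]
    exact MeasurableSet.empty

end Pool.Agent.H51.IR
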