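import Mathlib

set_option linter.style.longLine false

/-! Measure theory of nested systems of disjoint pieces. -/

namespace Pool.Agent.H51.IR

open Filter Topology Set MeasureTheory ENNReal

/-- a nested system: sets `R p`, and for every `p` a partition into pieces `K p x`, finer and finer,
such that membership in `R q` is constant on the pieces of all levels `p ≥ q` -/
structure Nest {X : Type*} [MeasurableSpace X] (μ : Measure X) (R : ℕ → Set X)
    (K : ℕ → X → Set X) : Prop where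
  meas : ∀ p, MeasurableSet (R p)
  measK : ∀ p x, MeasurableSet (K p x)
  mem : ∀ p x, x ∈ K p x
  eq : ∀ p x y, y ∈ K p x → K p y = K p x
  anti : ∀ p q x, p ≤ q → K q x ⊆ K p x
  iff : ∀ p x y, y ∈ K p x → ∀ q ≤ p, (x ∈ R q ↔ y ∈ R q)
  fin : μ (⋃ p, R p) ≠ ⊤

variable {X : Type*}

/-- the set of the points which are in infinitely many of the sets -/
def infSet (R : ℕ → Set X) : Set X := {x | {p | x ∈ R p}.Infinite}

theorem mem_infSet_iff {R : ℕ → Set X} (x : X) : x ∈ infSet R ↔ ∀ N, ∃ p, N ≤ p ∧ x ∈ R p := by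
  constructor
  · intro h N
    obtain ⟨p, hp, hN⟩ := h.exists_gt N
    exact ⟨p, hN.le, hp⟩
  · intro h
    refine Set.infinite_of_not_bddAbove fun ⟨B, hB⟩ => ?_
    obtain ⟨p, hp, hx⟩ := h (B + 1)
    have := hB hx
    omega

variable [MeasurableSpace X] {μ : Measure X} {R : ℕ → Set X} {K : ℕ → X → Set X}

theorem measurableSet_infSet (h : Nest μ R K) : MeasurableSet (infSet R) := by
  have : infSet R = ⋂ N : ℕ, ⋃ p : ℕ, ⋃ _ : N ≤ p, R p := by
    ext x
    simp only [mem_infSet_iff, mem_iInter, mem_iUnion, exists_prop]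
  rw [this]
  exact MeasurableSet.iInter fun N => MeasurableSet.iUnion fun p => MeasurableSet.iUnion fun _ =>
    h.meas p

theorem countable_of_pos [SFinite μ] {ι : Type*} (C : ι → Set X) (hm : ∀ i, MeasurableSet (C i))
    (hd : Pairwise (Function.onFun Disjoint C)) (hpos : ∀ i, 0 < μ (C i)) : Countable ι := by
  have h1 := Measure.countable_meas_pos_of_disjoint_iUnion (μ := μ) hm hd
  have h2 : {i | 0 < μ (C i)} = univ := by
    ext i
    simp [hpos i]
  rw [h2] at h1
  exact countable_univ_iff.1 h1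

/-- the covering argument -/
theorem Nest.measure_bad_le [SFinite μ] (h : Nest μ R K) {E : Set X} (hE : MeasurableSet E)
    {ε : ℝ≥0∞} (hε : ε ≠ 0) (hε' : ε ≠ ⊤) (G : Set X) (N : ℕ) :
    μ {x | ∃ p, N ≤ p ∧ K p x ⊆ G ∧ ε * μ (K p x) < μ (K p x \ E)} ≤ ε⁻¹ * μ (G \ E) := by
  classical
  let P : X → ℕ → Prop := fun x p => N ≤ p ∧ K p x ⊆ G ∧ ε * μ (K p x) < μ (K p x \ E)
  let Bad : Set X := {x | ∃ p, P x p}
  let lev : Bad → ℕ := fun x => Nat.find (p := P x.1) x.2
  have hlev : ∀ x, P x.1 (lev x) := fun x => Nat.find_spec (p := P x.1) x.2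
  have hmin : ∀ x p, P x.1 p → lev x ≤ p := fun x p hp => Nat.find_min' x.2 hp
  let ι := {C : Set X // ∃ x : Bad, C = K (lev x) x.1}
  have key : ∀ x y : Bad, lev x ≤ lev y →
      (K (lev x) x.1 ∩ K (lev y) y.1).Nonempty → K (lev x) x.1 = K (lev y) y.1 := by
    rintro x y hxy ⟨z, hz1, hz2⟩
    have e1 : K (lev x) z = K (lev x) x.1 := h.eq _ _ _ hz1
    have e2 : K (lev y) z = K (lev y) y.1 := h.eq _ _ _ hz2
    have hy : y.1 ∈ K (lev x) x.1 := by
      rw [← e1]
      apply h.anti _ _ z hxy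
      rw [e2]
      exact h.mem _ _
    have e3 : K (lev x) y.1 = K (lev x) x.1 := h.eq _ _ _ hy
    have h1 : P y.1 (lev x) := by
      refine ⟨(hlev x).1, ?_, ?_⟩
      · rw [e3]
        exact (hlev x).2.1
      · rw [e3]
        exact (hlev x).2.2
    have h2 : lev x = lev y := le_antisymm hxy (hmin y _ h1)
    rw [← h2, e3]
  have hd : Pairwise (Function.onFun Disjoint (fun i : ι => i.1)) := by
    rintro ⟨C, x, rfl⟩ ⟨C', y, rfl⟩ hne
    rw [Function.onFun, Set.disjoint_iff_inter_eq_empty]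
    by_contra hcon
    rw [← Ne, ← nonempty_iff_ne_empty] at hcon
    apply hne
    apply Subtype.ext
    rcases le_total (lev x) (lev y) with h1 | h1
    · exact key x y h1 hcon
    · rw [inter_comm] at hcon
      exact (key y x h1 hcon).symm
  have hm : ∀ i : ι, MeasurableSet i.1 := by
    rintro ⟨C, x, rfl⟩
    exact h.measK _ _
  have hlt : ∀ i : ι, ε * μ i.1 < μ (i.1 \ E) := by
    rintro ⟨C, x, rfl⟩
    exact (hlev x).2.2
  have hpos : ∀ i : ι, 0 < μ i.1 := by
    intro i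
    by_contra hcon
    have h0 : μ i.1 = 0 := by simpa using hcon
    have h1 := hlt i
    rw [h0, mul_zero] at h1
    exact absurd (measure_mono_null sdiff_subset h0) h1.ne'
  have hcount : Countable ι := countable_of_pos (fun i : ι => i.1) hm hd hpos
  have h1 : Bad ⊆ ⋃ i : ι, i.1 := by
    intro x hx
    exact mem_iUnion.2 ⟨⟨K (lev ⟨x, hx⟩) x, ⟨x, hx⟩, rfl⟩, h.mem _ _⟩
  have h2 : ∀ i : ι, μ i.1 ≤ ε⁻¹ * μ (i.1 \ E) := by
    intro i
    have := (hlt i).le
    calc μ i.1 = ε⁻¹ * (ε * μ i.1) := by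
          rw [← mul_assoc, ENNReal.inv_mul_cancel hε hε', one_mul]
      _ ≤ _ := mul_le_mul_right this _
  calc μ Bad ≤ μ (⋃ i : ι, i.1) := measure_mono h1
    _ ≤ ∑' i : ι, μ i.1 := measure_iUnion_le _
    _ ≤ ∑' i : ι, ε⁻¹ * μ (i.1 \ E) := ENNReal.tsum_le_tsum h2
    _ = ε⁻¹ * ∑' i : ι, μ (i.1 \ E) := ENNReal.tsum_mul_left
    _ = ε⁻¹ * μ (⋃ i : ι, (i.1 \ E)) := by
        rw [measure_iUnion]
        · intro i j hij
          exact (hd hij).mono sdiff_subset sdiff_subset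
        · exact fun i => (hm i).diff hE
    _ ≤ _ := by
        refine mul_le_mul_right (measure_mono ?_) _
        intro y hy
        obtain ⟨i, hi⟩ := mem_iUnion.1 hy
        obtain ⟨C, x, rfl⟩ := i
        exact ⟨(hlev x).2.1 hi.1, hi.2⟩

/-- the measurable sets which are unions of pieces of some level -/
def satSets (K : ℕ → X → Set X) : Set (Set X) := {S | MeasurableSet S ∧ ∃ p, ∀ x ∈ S, K p x ⊆ S}

theorem Nest.isSetAlgebra (h : Nest μ R K) : IsSetAlgebra (satSets K) where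
  empty_mem := ⟨MeasurableSet.empty, 0, fun x hx => absurd hx (notMem_empty x)⟩
  compl_mem := by
    rintro S ⟨hS, p, hp⟩
    refine ⟨hS.compl, p, fun x hx y hy hyS => hx ?_⟩
    have h1 := hp y hyS
    rw [h.eq p x y hy] at h1
    exact h1 (h.mem p x)
  union_mem := by
    rintro S T ⟨hS, p, hp⟩ ⟨hT, q, hq⟩
    refine ⟨hS.union hT, max p q, ?_⟩
    rintro x (hx | hx)
    · exact ((h.anti _ _ x (le_max_left p q)).trans (hp x hx)).trans subset_union_left
    · exact ((h.anti _ _ x (le_max_right p q)).trans (hq x hx)).trans subset_union_right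

theorem Nest.mem_satSets (h : Nest μ R K) (p : ℕ) : R p ∈ satSets K :=
  ⟨h.meas p, p, fun x hx _ hy => (h.iff p x _ hy p le_rfl).1 hx⟩

/-- for a set `E` in the sigma algebra generated by the unions of pieces, almost every point of `E`
is a density point of `E` with respect to the pieces -/
theorem Nest.levy [SFinite μ] (h : Nest μ R K) {E : Set X}
    (hE : MeasurableSet[MeasurableSpace.generateFrom (satSets K)] E) :
    ∀ᵐ x ∂μ, x ∈ E → (∃ q, x ∈ R q) →
      Tendsto (fun p => μ (K p x \ E) / μ (K p x)) atTop (𝓝 0) := by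
  have hle : MeasurableSpace.generateFrom (satSets K) ≤ ‹MeasurableSpace X› :=
    MeasurableSpace.generateFrom_le fun S hS => hS.1
  have hE' : MeasurableSet E := hle _ hE
  set B : Set X := ⋃ p, R p with hB
  have hBm : MeasurableSet B := MeasurableSet.iUnion h.meas
  have hfin : IsFiniteMeasure (μ.restrict B) := ⟨by
    rw [Measure.restrict_apply_univ]
    exact h.fin.lt_top⟩
  have hdense := Measure.MeasureDense.of_generateFrom_isSetAlgebra_finite
    (m := MeasurableSpace.generateFrom (satSets K)) ((μ.restrict B).trim hle) h.isSetAlgebra rfl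
  have happ : ∀ η : ℝ, 0 < η → ∃ S, MeasurableSet S ∧ (∃ n, ∀ x ∈ S, K n x ⊆ S) ∧
      μ ((E ∩ B) \ S) < ENNReal.ofReal η ∧ μ ((B ∩ S) \ E) < ENNReal.ofReal η := by
    intro η hη
    obtain ⟨S, hS, hlt⟩ := @Measure.MeasureDense.approx _
      (MeasurableSpace.generateFrom (satSets K)) _ _ hdense E hE
      (by rw [trim_measurableSet_eq hle hE]; exact measure_ne_top _ _) η hη
    have hSm : MeasurableSet[MeasurableSpace.generateFrom (satSets K)] S :=
      MeasurableSpace.measurableSet_generateFrom hS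
    rw [trim_measurableSet_eq hle (hE.symmDiff hSm),
      Measure.restrict_apply (hE'.symmDiff hS.1)] at hlt
    refine ⟨S, hS.1, hS.2, lt_of_le_of_lt (measure_mono ?_) hlt,
      lt_of_le_of_lt (measure_mono ?_) hlt⟩
    · rintro x ⟨⟨h1, h2⟩, h3⟩
      exact ⟨Or.inl ⟨h1, h3⟩, h2⟩
    · rintro x ⟨⟨h1, h2⟩, h3⟩
      exact ⟨Or.inr ⟨h2, h3⟩, h1⟩
  have hk : ∀ k : ℕ, ∀ᵐ x ∂μ, ¬ (x ∈ E ∩ B ∧ ∀ N, ∃ p, N ≤ p ∧ K p x ⊆ B ∧
      ((k : ℝ≥0∞) + 1)⁻¹ * μ (K p x) < μ (K p x \ E)) := by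
    intro k
    set ε : ℝ≥0∞ := ((k : ℝ≥0∞) + 1)⁻¹ with hεdef
    have hε : ε ≠ 0 := ENNReal.inv_ne_zero.2 (by finiteness)
    have hε' : ε ≠ ⊤ := ENNReal.inv_ne_top.2 (by positivity)
    rw [ae_iff]
    simp only [not_not]
    set Z := {x | x ∈ E ∩ B ∧ ∀ N, ∃ p, N ≤ p ∧ K p x ⊆ B ∧ ε * μ (K p x) < μ (K p x \ E)}
      with hZ
    have h1 : ∀ η : ℝ, 0 < η → μ Z ≤ (1 + ε⁻¹) * ENNReal.ofReal η := by
      intro η hη
      obtain ⟨S, hSm, ⟨n, hn⟩, h2, h3⟩ := happ η hη
      have h4 : Z ⊆ ((E ∩ B) \ S) ∪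
          {x | ∃ p, n ≤ p ∧ K p x ⊆ B ∩ S ∧ ε * μ (K p x) < μ (K p x \ E)} := by
        rintro x ⟨hx1, hx2⟩
        by_cases hxS : x ∈ S
        · obtain ⟨p, hp, hpB, hlt⟩ := hx2 n
          exact Or.inr ⟨p, hp, subset_inter hpB ((h.anti n p x hp).trans (hn x hxS)), hlt⟩
        · exact Or.inl ⟨hx1, hxS⟩
      calc μ Z ≤ μ ((E ∩ B) \ S) +
            μ {x | ∃ p, n ≤ p ∧ K p x ⊆ B ∩ S ∧ ε * μ (K p x) < μ (K p x \ E)} :=
            (measure_mono h4).trans (measure_union_le _ _)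
        _ ≤ ENNReal.ofReal η + ε⁻¹ * ENNReal.ofReal η :=
            add_le_add h2.le ((h.measure_bad_le hE' hε hε' (B ∩ S) n).trans
              (mul_le_mul_right h3.le _))
        _ = _ := by rw [add_mul, one_mul]
    have h5 : Tendsto (fun j : ℕ => (1 + ε⁻¹) * ENNReal.ofReal (1 / ((j : ℝ) + 1))) atTop
        (𝓝 0) := by
      have h6 : Tendsto (fun j : ℕ => ENNReal.ofReal (1 / ((j : ℝ) + 1))) atTop (𝓝 0) := by
        have := ENNReal.tendsto_ofReal (tendsto_one_div_add_atTop_nhds_zero_nat (𝕜 := ℝ))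
        rwa [ENNReal.ofReal_zero] at this
      have := ENNReal.Tendsto.const_mul (a := 1 + ε⁻¹) h6
        (Or.inr (ENNReal.add_ne_top.2 ⟨ENNReal.one_ne_top, ENNReal.inv_ne_top.2 hε⟩))
      rwa [mul_zero] at this
    exact le_antisymm (ge_of_tendsto' h5 fun j => h1 _ (by positivity)) bot_le
  filter_upwards [ae_all_iff.2 hk] with x hx hxE hq
  obtain ⟨q, hq⟩ := hq
  rw [ENNReal.tendsto_nhds_zero]
  intro δ hδ
  obtain ⟨k, hk⟩ := ENNReal.exists_inv_nat_lt hδ.ne'
  have h1 := hx k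
  push Not at h1
  obtain ⟨N, hN⟩ := h1 ⟨hxE, mem_iUnion.2 ⟨q, hq⟩⟩
  filter_upwards [eventually_ge_atTop N, eventually_ge_atTop q] with p hp hqp
  have hKB : K p x ⊆ B := fun y hy => mem_iUnion.2 ⟨q, (h.iff p x y hy q hqp).1 hq⟩
  have h1 : μ (K p x \ E) ≤ ((k : ℝ≥0∞) + 1)⁻¹ * μ (K p x) := hN p hp hKB
  refine (ENNReal.div_le_of_le_mul h1).trans (le_trans ?_ hk.le)
  exact ENNReal.inv_le_inv.2 le_self_add

theorem Nest.measurableSet_infSet' (h : Nest μ R K) :
    MeasurableSet[MeasurableSpace.generateFrom (satSets K)] (infSet R) := by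
  have : infSet R = ⋂ N : ℕ, ⋃ p : ℕ, ⋃ _ : N ≤ p, R p := by
    ext x
    simp only [mem_infSet_iff, mem_iInter, mem_iUnion, exists_prop]
  rw [this]
  exact MeasurableSet.iInter fun N => MeasurableSet.iUnion fun p => MeasurableSet.iUnion fun _ =>
    MeasurableSpace.measurableSet_generateFrom (h.mem_satSets p)

/-- the points of `R p` which are in at most `m` of the sets `R q`, `q > p` -/
def fewSet (R : ℕ → Set X) (m p : ℕ) : Set X := {x | x ∈ R p ∧ {q | p < q ∧ x ∈ R q}.encard ≤ m}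

theorem measurableSet_fewSet (h : Nest μ R K) (m p : ℕ) : MeasurableSet (fewSet R m p) := by
  classical
  have : fewSet R m p = R p ∩ (⋃ t : {t : Finset ℕ // m + 1 ≤ t.card ∧ ∀ q ∈ t, p < q},
      ⋂ q ∈ t.1, R q)ᶜ := by
    ext x
    simp only [fewSet, mem_ofPred_eq, mem_inter_iff, mem_compl_iff, mem_iUnion, mem_iInter,
      not_exists]
    refine and_congr_right fun _ => ?_
    constructor
    · rintro h1 ⟨t, ht, htp⟩ h2
      have h3 : ((t : Set ℕ)).encard ≤ m := by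
        refine (encard_le_encard ?_).trans h1
        intro q hq
        exact ⟨htp q hq, h2 q hq⟩
      rw [encard_coe_eq_coe_finsetCard] at h3
      have : t.card ≤ m := by exact_mod_cast h3
      omega
    · intro h1
      by_contra hcon
      push Not at hcon
      have h2 : ((m + 1 : ℕ) : ℕ∞) ≤ {q | p < q ∧ x ∈ R q}.encard := by
        have := Order.add_one_le_of_lt hcon
        push_cast
        exact this
      obtain ⟨s, hs, hsc⟩ := exists_subset_encard_eq h2
      have hsf : s.Finite := finite_of_encard_eq_coe hsc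
      refine h1 ⟨hsf.toFinset, ?_, ?_⟩ ?_
      · rw [hsf.encard_eq_coe_toFinset_card] at hsc
        have : hsf.toFinset.card = m + 1 := by exact_mod_cast hsc
        omega
      · intro q hq
        exact (hs (hsf.mem_toFinset.1 hq)).1
      · intro q hq
        exact (hs (hsf.mem_toFinset.1 hq)).2
  rw [this]
  exact (h.meas p).inter (MeasurableSet.iUnion fun t =>
    Finset.measurableSet_biInter _ fun q _ => h.meas q).compl

omit [MeasurableSpace X] in
theorem notMem_infSet_of_mem_fewSet {m p : ℕ} {x : X} (hx : x ∈ fewSet R m p) : x ∉ infSet R := by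
  intro h
  have h1 : {q | p < q ∧ x ∈ R q}.Finite := finite_of_encard_le_coe hx.2
  refine h ((h1.union (finite_Iic p)).subset fun q hq => ?_)
  rcases lt_or_ge p q with h2 | h2
  · exact Or.inl ⟨h2, hq⟩
  · exact Or.inr h2

omit [MeasurableSpace X] in
theorem tsum_indicator_fewSet_le (m : ℕ) (x : X) (E : Set X) :
    ∑' p, (E ∩ fewSet R m p).indicator (fun _ => (1 : ℝ≥0∞)) x ≤
      ((E ∩ ⋃ p, R p) \ infSet R).indicator (fun _ => (m : ℝ≥0∞) + 1) x := by
  classical
  rw [ENNReal.tsum_eq_iSup_sum]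
  refine iSup_le fun s => ?_
  have h1 : ∑ p ∈ s, (E ∩ fewSet R m p).indicator (fun _ => (1 : ℝ≥0∞)) x =
      ((s.filter fun p => x ∈ E ∩ fewSet R m p).card : ℝ≥0∞) := by
    rw [Finset.card_filter]
    push_cast
    refine Finset.sum_congr rfl fun p _ => ?_
    simp only [indicator_apply]
  rw [h1]
  set t := s.filter fun p => x ∈ E ∩ fewSet R m p with ht
  rcases t.eq_empty_or_nonempty with h2 | h2
  · rw [h2]
    simp
  · have h3 := Finset.mem_filter.1 (t.min'_mem h2)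
    have hx : x ∈ (E ∩ ⋃ p, R p) \ infSet R :=
      ⟨⟨h3.2.1, mem_iUnion.2 ⟨_, h3.2.2.1⟩⟩, notMem_infSet_of_mem_fewSet h3.2.2⟩
    rw [indicator_of_mem hx]
    have h4 : ((t.erase (t.min' h2) : Finset ℕ) : Set ℕ) ⊆ {q | t.min' h2 < q ∧ x ∈ R q} := by
      intro q hq
      rw [Finset.mem_coe, Finset.mem_erase] at hq
      refine ⟨lt_of_le_of_ne (t.min'_le q hq.2) (Ne.symm hq.1), ?_⟩
      have := hq.2
      rw [ht, Finset.mem_filter] at this
      exact this.2.2.1
    have h5 := (encard_le_encard h4).trans h3.2.2.2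
    rw [encard_coe_eq_coe_finsetCard, Finset.card_erase_of_mem (t.min'_mem h2)] at h5
    have h6 : t.card - 1 ≤ m := by exact_mod_cast h5
    have h7 : t.card ≤ m + 1 := by omega
    exact_mod_cast h7

theorem Nest.tsum_measure_fewSet_le (h : Nest μ R K) (m : ℕ) {E : Set X} (hE : MeasurableSet E) :
    ∑' p, μ (E ∩ fewSet R m p) ≤ ((m : ℝ≥0∞) + 1) * μ ((E ∩ ⋃ p, R p) \ infSet R) := by
  have hm : ∀ p, MeasurableSet (E ∩ fewSet R m p) := fun p => hE.inter (measurableSet_fewSet h m p)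
  have h1 : ∀ p, μ (E ∩ fewSet R m p) =
      ∫⁻ x, (E ∩ fewSet R m p).indicator (fun _ => (1 : ℝ≥0∞)) x ∂μ := by
    intro p
    rw [lintegral_indicator_const (hm p), one_mul]
  calc ∑' p, μ (E ∩ fewSet R m p)
      = ∑' p, ∫⁻ x, (E ∩ fewSet R m p).indicator (fun _ => (1 : ℝ≥0∞)) x ∂μ := tsum_congr h1
    _ = ∫⁻ x, ∑' p, (E ∩ fewSet R m p).indicator (fun _ => (1 : ℝ≥0∞)) x ∂μ := by
        rw [lintegral_tsum]
        exact fun p => (measurable_const.indicator (hm p)).aemeasurable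
    _ ≤ ∫⁻ x, ((E ∩ ⋃ p, R p) \ infSet R).indicator (fun _ => (m : ℝ≥0∞) + 1) x ∂μ :=
        lintegral_mono fun x => tsum_indicator_fewSet_le m x E
    _ = _ := lintegral_indicator_const
        ((hE.inter (MeasurableSet.iUnion fun p => h.meas p)).diff (measurableSet_infSet h)) _

theorem Nest.measure_piece_ne_top (h : Nest μ R K) {p : ℕ} {x : X} (hx : x ∈ R p) :
    μ (K p x) ≠ ⊤ :=
  ne_top_of_le_ne_top h.fin (measure_mono fun _ hy =>
    mem_iUnion.2 ⟨p, (h.iff _ _ _ hy _ le_rfl).1 hx⟩)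

/-- a measurable majorant of the relative measures, one level -/
theorem Nest.exists_majorant [SFinite μ] (h : Nest μ R K) {A : Set X} (hA : MeasurableSet A)
    (p : ℕ) (E : Set X) (hE : ∀ x ∈ E, x ∈ R p → K p x ⊆ E) :
    ∃ F : X → ℝ≥0∞, Measurable F ∧ (∀ x ∈ E, x ∈ R p → μ (K p x ∩ A) / μ (K p x) ≤ F x) ∧
      ∫⁻ x, F x ∂μ ≤ μ (E ∩ A) := by
  classical
  let D : Type _ := {C : Set X // ∃ x ∈ R p, x ∈ E ∧ C = K p x ∧ 0 < μ C}
  have hmD : ∀ i : D, MeasurableSet i.1 := by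
    rintro ⟨C, x, hx, hxE, rfl, h0⟩
    exact h.measK _ _
  have hdD : Pairwise (Function.onFun Disjoint (fun i : D => i.1)) := by
    rintro ⟨C, x, hx, hxE, rfl, h0⟩ ⟨C', y, hy, hyE, rfl, h0'⟩ hne
    rw [Function.onFun, Set.disjoint_iff_inter_eq_empty]
    by_contra hcon
    rw [← Ne, ← nonempty_iff_ne_empty] at hcon
    obtain ⟨z, hz1, hz2⟩ := hcon
    apply hne
    apply Subtype.ext
    show K p x = K p y
    rw [← h.eq _ _ _ hz1, ← h.eq _ _ _ hz2]
  have hcD : Countable D := by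
    refine countable_of_pos (μ := μ) (fun i : D => i.1) hmD hdD ?_
    rintro ⟨C, x, hx, hxE, rfl, h0⟩
    exact h0
  refine ⟨fun x => ∑' i : D, i.1.indicator (fun _ => μ (i.1 ∩ A) / μ i.1) x, ?_, ?_, ?_⟩
  · exact Measurable.tsum fun i => measurable_const.indicator (hmD i)
  · intro x hxE hx
    by_cases h0 : μ (K p x) = 0
    · rw [measure_mono_null inter_subset_left h0, ENNReal.zero_div]
      exact bot_le
    · let i : D := ⟨K p x, x, hx, hxE, rfl, pos_iff_ne_zero.2 h0⟩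
      refine le_trans (le_of_eq ?_) (ENNReal.le_tsum i)
      rw [indicator_of_mem (h.mem p x)]
  · calc ∫⁻ x, ∑' i : D, i.1.indicator (fun _ => μ (i.1 ∩ A) / μ i.1) x ∂μ
        = ∑' i : D, ∫⁻ x, i.1.indicator (fun _ => μ (i.1 ∩ A) / μ i.1) x ∂μ := by
          rw [lintegral_tsum]
          exact fun i => (measurable_const.indicator (hmD i)).aemeasurable
      _ ≤ ∑' i : D, μ (i.1 ∩ A) := by
          refine ENNReal.tsum_le_tsum fun i => ?_
          rw [lintegral_indicator_const (hmD i), mul_comm]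
          exact ENNReal.mul_div_le
      _ = μ (⋃ i : D, (i.1 ∩ A)) := by
          rw [measure_iUnion]
          · intro i j hij
            exact (hdD hij).mono inter_subset_left inter_subset_left
          · exact fun i => (hmD i).inter hA
      _ ≤ μ (E ∩ A) := by
          refine measure_mono (iUnion_subset ?_)
          rintro ⟨C, x, hx, hxE, rfl, h0⟩
          exact inter_subset_inter_left _ (hE x hxE hx)

/-- the relative measure of a set in the pieces is a measurable function -/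
theorem Nest.measurable_ratio [SFinite μ] (h : Nest μ R K) (A : Set X) (p : ℕ) :
    Measurable ((R p).indicator fun x => μ (K p x ∩ A) / μ (K p x)) := by
  classical
  refine measurable_of_Ioi fun a => ?_
  let D : Type _ := {C : Set X // ∃ x ∈ R p, C = K p x ∧ 0 < μ C ∧ a < μ (C ∩ A) / μ C}
  have hmD : ∀ i : D, MeasurableSet i.1 := by
    rintro ⟨C, x, hx, rfl, h0⟩
    exact h.measK _ _
  have hdD : Pairwise (Function.onFun Disjoint (fun i : D => i.1)) := by
    rintro ⟨C, x, hx, rfl, h0⟩ ⟨C', y, hy, rfl, h0'⟩ hne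
    rw [Function.onFun, Set.disjoint_iff_inter_eq_empty]
    by_contra hcon
    rw [← Ne, ← nonempty_iff_ne_empty] at hcon
    obtain ⟨z, hz1, hz2⟩ := hcon
    apply hne
    apply Subtype.ext
    show K p x = K p y
    rw [← h.eq _ _ _ hz1, ← h.eq _ _ _ hz2]
  have hcD : Countable D := by
    refine countable_of_pos (μ := μ) (fun i : D => i.1) hmD hdD ?_
    rintro ⟨C, x, hx, rfl, h0⟩
    exact h0.1
  have : ((R p).indicator fun x => μ (K p x ∩ A) / μ (K p x)) ⁻¹' Ioi a = ⋃ i : D, i.1 := by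
    ext x
    rw [mem_preimage, mem_Ioi, mem_iUnion]
    constructor
    · intro hx
      by_cases hxR : x ∈ R p
      · rw [indicator_of_mem hxR] at hx
        refine ⟨⟨K p x, x, hxR, rfl, ?_, hx⟩, h.mem p x⟩
        rw [pos_iff_ne_zero]
        intro h0
        rw [measure_mono_null inter_subset_left h0, ENNReal.zero_div] at hx
        exact absurd hx not_lt_bot
      · rw [indicator_of_notMem hxR] at hx
        exact absurd hx not_lt_bot
    · rintro ⟨⟨C, y, hy, rfl, h0, ha⟩, hx⟩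
      have hx : x ∈ K p y := hx
      rw [indicator_of_mem ((h.iff _ _ _ hx _ le_rfl).1 hy), h.eq _ _ _ hx]
      exact ha
  rw [this]
  exact MeasurableSet.iUnion hmD

/-- the relative measures of sets with summable measures are summable almost everywhere -/
theorem Nest.summable [SFinite μ] (h : Nest μ R K) (A : ℕ → Set X) (hA : ∀ p, MeasurableSet (A p))
    (hs : ∑' p, μ (A p) ≠ ⊤) :
    ∀ᵐ x ∂μ, ∑' p : {p | x ∈ R p}, μ (K p x ∩ A p) / μ (K p x) ≠ ⊤ := by
  choose F hFm hle hFi using fun p => h.exists_majorant (hA p) p univ (fun _ _ _ => subset_univ _)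
  have htot : ∫⁻ x, ∑' p, F p x ∂μ ≠ ⊤ := by
    rw [lintegral_tsum fun p => (hFm p).aemeasurable]
    refine ne_top_of_le_ne_top hs (ENNReal.tsum_le_tsum fun p => ?_)
    have := hFi p
    rwa [univ_inter] at this
  filter_upwards [ae_lt_top (Measurable.tsum hFm) htot] with x hx
  refine ne_top_of_le_ne_top hx.ne ?_
  calc ∑' p : {p | x ∈ R p}, μ (K p x ∩ A p) / μ (K p x)
      ≤ ∑' p : {p | x ∈ R p}, F p x := ENNReal.tsum_le_tsum fun p => hle p x (mem_univ x) p.2
    _ ≤ ∑' p, F p x := ENNReal.tsum_comp_le_tsum_of_injective Subtype.val_injective _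

/-- the integral of the sum of the relative measures over a piece -/
theorem Nest.lintegral_le [SFinite μ] (h : Nest μ R K) (m p₀ : ℕ) (x₀ : X) :
    ∫⁻ x in K p₀ x₀, ∑' p : {p | x ∈ R p ∧ p₀ ≤ p},
      μ (K p x ∩ fewSet R m p) / μ (K p x) ∂μ ≤
      ((m : ℝ≥0∞) + 1) * μ ((K p₀ x₀ ∩ ⋃ p, R p) \ infSet R) := by
  classical
  have hsat : ∀ p, p₀ ≤ p → ∀ x ∈ K p₀ x₀, x ∈ R p → K p x ⊆ K p₀ x₀ := by
    intro p hp x hx _
    have := h.anti p₀ p x hp
    rwa [h.eq _ _ _ hx] at this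
  have key : ∀ p, ∃ F : X → ℝ≥0∞, Measurable F ∧ (p₀ ≤ p → ∀ x ∈ K p₀ x₀, x ∈ R p →
      μ (K p x ∩ fewSet R m p) / μ (K p x) ≤ F x) ∧ ∫⁻ x, F x ∂μ ≤ μ (K p₀ x₀ ∩ fewSet R m p) := by
    intro p
    by_cases hp : p₀ ≤ p
    · obtain ⟨F, h1, h2, h3⟩ := h.exists_majorant (measurableSet_fewSet h m p) p (K p₀ x₀)
        (hsat p hp)
      exact ⟨F, h1, fun _ => h2, h3⟩
    · exact ⟨0, measurable_zero, fun h => absurd h hp, by simp⟩
  choose F hFm hle hFi using key
  calc ∫⁻ x in K p₀ x₀, ∑' p : {p | x ∈ R p ∧ p₀ ≤ p},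
        μ (K p x ∩ fewSet R m p) / μ (K p x) ∂μ
      ≤ ∫⁻ x in K p₀ x₀, ∑' p, F p x ∂μ := by
        refine setLIntegral_mono' (h.measK _ _) fun x hx => ?_
        calc ∑' p : {p | x ∈ R p ∧ p₀ ≤ p}, μ (K p x ∩ fewSet R m p) / μ (K p x)
            ≤ ∑' p : {p | x ∈ R p ∧ p₀ ≤ p}, F p x :=
              ENNReal.tsum_le_tsum fun p => hle p p.2.2 x hx p.2.1
          _ ≤ ∑' p, F p x := ENNReal.tsum_comp_le_tsum_of_injective Subtype.val_injective _
    _ ≤ ∫⁻ x, ∑' p, F p x ∂μ := setLIntegral_le_lintegral _ _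
    _ = ∑' p, ∫⁻ x, F p x ∂μ := lintegral_tsum fun p => (hFm p).aemeasurable
    _ ≤ ∑' p, μ (K p₀ x₀ ∩ fewSet R m p) := ENNReal.tsum_le_tsum hFi
    _ ≤ _ := h.tsum_measure_fewSet_le m (h.measK _ _)

end Pool.Agent.H51.IR
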