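import Pool.Agent.H51.IR.Box
import Pool.Agent.H51.IR.Nest

set_option linter.style.longLine false

/-! The copies form a nested system. -/

namespace Pool.Agent.H51.IR

open Filter Topology Set MeasureTheory ENNReal

/-- the set of the parameters which are renormalizable with period `p` -/
def renormSet (p : ℕ) : Set ℂ := {c | IsRenorm p c}

theorem infSet_renormSet : infSet renormSet = infRenorm := rfl

theorem sameUpTo_eq {p : ℕ} {c c' : ℂ} (h : c' ∈ sameUpTo p c) : sameUpTo p c' = sameUpTo p c := by
  ext x
  constructor
  · intro hx q hq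
    exact (hx q hq).trans (h q hq)
  · intro hx q hq
    exact (hx q hq).trans (h q hq).symm

theorem mem_sameUpTo (p : ℕ) (c : ℂ) : c ∈ sameUpTo p c := fun _ _ => Iff.rfl

theorem mem_copy (p : ℕ) (c : ℂ) : c ∈ copy p c := mem_connectedComponentIn (mem_sameUpTo p c)

theorem copy_subset (p : ℕ) (c : ℂ) : copy p c ⊆ sameUpTo p c := connectedComponentIn_subset _ _

theorem copy_eq {p : ℕ} {c c' : ℂ} (h : c' ∈ copy p c) : copy p c' = copy p c := by
  unfold copy
  rw [sameUpTo_eq (copy_subset p c h)]
  exact (connectedComponentIn_eq h).symm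

theorem copy_anti {p q : ℕ} (c : ℂ) (h : p ≤ q) : copy q c ⊆ copy p c :=
  connectedComponentIn_mono c fun _ hx r hr => hx r (hr.trans h)

theorem measurableSet_sameUpTo (p : ℕ) (c : ℂ) : MeasurableSet (sameUpTo p c) := by
  have : sameUpTo p c = ⋂ q : ℕ, ⋂ _ : q ≤ p, {c' | IsRenorm q c' ↔ IsRenorm q c} := by
    ext x
    simp only [sameUpTo, mem_ofPred_eq, mem_iInter]
  rw [this]
  refine MeasurableSet.iInter fun q => MeasurableSet.iInter fun _ => ?_
  by_cases hq : IsRenorm q c
  · simp only [hq, iff_true]
    exact measurableSet_isRenorm q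
  · simp only [hq, iff_false]
    exact (measurableSet_isRenorm q).compl

theorem measurableSet_copy (p : ℕ) (c : ℂ) : MeasurableSet (copy p c) := by
  have : copy p c = closure (copy p c) ∩ sameUpTo p c :=
    subset_antisymm (subset_inter subset_closure (copy_subset p c)) connectedComponentIn_closed
  rw [this]
  exact isClosed_closure.measurableSet.inter (measurableSet_sameUpTo p c)

theorem renormSet_subset (p : ℕ) : renormSet p ⊆ Metric.closedBall 0 2 := by
  intro c hc
  rw [mem_closedBall_zero_iff]
  exact norm_le_two_of_isRenorm hc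

theorem nest (μ : Measure ℂ) [IsLocallyFiniteMeasure μ] : Nest μ renormSet copy where
  meas := measurableSet_isRenorm
  measK := measurableSet_copy
  mem := mem_copy
  eq _ _ _ h := copy_eq h
  anti _ _ c h := copy_anti c h
  iff p x _ h q hq := (copy_subset p x h q hq).symm
  fin := ne_top_of_le_ne_top (isCompact_closedBall (0 : ℂ) 2).measure_ne_top
    (measure_mono (iUnion_subset renormSet_subset))

theorem measurableSet_infRenorm : MeasurableSet infRenorm := measurableSet_infSet (nest volume)

/-- the sigma algebra of combinatorial sets: it is generated by the Borel sets which for some `p`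
are unions of sets `copy p c` -/
@[reducible] def combSigma : MeasurableSpace ℂ :=
  MeasurableSpace.generateFrom {S : Set ℂ | MeasurableSet S ∧ ∃ p, ∀ c ∈ S, copy p c ⊆ S}

theorem combSigma_renormSet (p : ℕ) : MeasurableSet[combSigma] {c | IsRenorm p c} :=
  MeasurableSpace.measurableSet_generateFrom ((nest volume).mem_satSets p)

theorem combSigma_infRenorm : MeasurableSet[combSigma] infRenorm :=
  (nest volume).measurableSet_infSet'

end Pool.Agent.H51.IR
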