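import Mathlib

set_option linter.style.longLine false

/-! Renormalizable parameters of the quadratic family: definitions. -/

namespace Pool.Agent.H51.IR

open Polynomial

/-- the quadratic map `z ↦ z ^ 2 + c` -/
def quad (c z : ℂ) : ℂ := z ^ 2 + c

/-- the polynomial whose values are those of the `n`-th iterate of `z ↦ z ^ 2 + c` -/
noncomputable def iterPoly (c : ℂ) : ℕ → ℂ[X]
  | 0 => X
  | n + 1 => iterPoly c n ^ 2 + C c

open Classical in
/-- `g` restricted to `U` is a quadratic-like map: `U` and its image `g(U)` are bounded simply
connected domains (open, connected, with connected complement), the closure of `U` lies in the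
interior of `g(U)`, and `g : U → g(U)` is proper of degree two (every value is taken exactly twice
in `U`, counted with multiplicity) -/
structure IsQuadLike (g : ℂ[X]) (U : Set ℂ) : Prop where
  isOpen : IsOpen U
  isConnected : IsConnected U
  isConnected_compl : IsConnected Uᶜ
  isBounded : Bornology.IsBounded U
  isConnected_compl_image : IsConnected ((fun z => g.eval z) '' U)ᶜ
  closure_subset : closure U ⊆ interior ((fun z => g.eval z) '' U)
  proper : ∀ K : Set ℂ, K ⊆ (fun z => g.eval z) '' U → IsCompact K →
    IsCompact (U ∩ (fun z => g.eval z) ⁻¹' K)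
  degree_two : ∀ w ∈ (fun z => g.eval z) '' U, ((g - C w).roots.filter (· ∈ U)).card = 2

/-- `f_c` is renormalizable with period `p`: for some open neighbourhood `U` of `0` all
`f_c^{np}(0)`, `n ≥ 1`, are in `U`, the restriction of the `p`-th iterate to `U` is quadratic-like,
and the closure of `U` contains no critical point of the `p`-th iterate other than `0` -/
def IsRenorm (p : ℕ) (c : ℂ) : Prop :=
  2 ≤ p ∧ ∃ U : Set ℂ, (0 : ℂ) ∈ U ∧ IsQuadLike (iterPoly c p) U ∧
    (∀ n : ℕ, 1 ≤ n → (quad c)^[n * p] 0 ∈ U) ∧
    (∀ z ∈ closure U, (derivative (iterPoly c p)).eval z = 0 → z = 0)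

/-- the renormalization periods of `f_c` -/
def periods (c : ℂ) : Set ℕ := {p | IsRenorm p c}

/-- the infinitely renormalizable parameters -/
def infRenorm : Set ℂ := {c | (periods c).Infinite}

/-- the parameters with the same renormalization periods up to `p` as `c` -/
def sameUpTo (p : ℕ) (c : ℂ) : Set ℂ := {c' | ∀ q ≤ p, (IsRenorm q c' ↔ IsRenorm q c)}

/-- the connected component containing `c` of the set of parameters with the same
renormalization periods up to `p` as `c` -/
def copy (p : ℕ) (c : ℂ) : Set ℂ := connectedComponentIn (sameUpTo p c) c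

end Pool.Agent.H51.IR
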