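import Pool.Agent.H51.IR.Copies

set_option linter.style.longLine false

/-! Parameters of a copy with few further renormalization periods. -/

namespace Pool.Agent.H51.IR

open Filter Topology Set MeasureTheory ENNReal

/-- the parameters in `copy p c` with at most `m` renormalization periods larger than `p` -/
def few (m p : ℕ) (c : ℂ) : Set ℂ :=
  {c' | c' ∈ copy p c ∧ {q | q ∈ periods c' ∧ p < q}.encard ≤ m}

theorem few_subset {m p : ℕ} {c : ℂ} (hp : p ∈ periods c) :
    few m p c ⊆ copy p c ∩ fewSet renormSet m p := by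
  rintro c' ⟨h2, h3⟩
  refine ⟨h2, ?_, ?_⟩
  · exact ((copy_subset p c h2) p le_rfl).2 hp
  · convert h3 using 2
    ext q
    exact and_comm

theorem few_eq {m p : ℕ} {c : ℂ} (hp : p ∈ periods c) :
    few m p c = copy p c ∩ fewSet renormSet m p := by
  refine subset_antisymm (few_subset hp) ?_
  rintro c' ⟨h2, -, h3⟩
  refine ⟨h2, ?_⟩
  convert h3 using 2
  ext q
  exact and_comm

theorem measurable_defect (μ : Measure ℂ) [IsLocallyFiniteMeasure μ] (m p₀ : ℕ) :
    Measurable fun c => ∑' p : {p | p ∈ periods c ∧ p₀ ≤ p}, μ (few m p c) / μ (copy p c) := by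
  classical
  have h1 : ∀ c, ∑' p : {p | p ∈ periods c ∧ p₀ ≤ p}, μ (few m p c) / μ (copy p c) =
      ∑' p, if p₀ ≤ p then (renormSet p).indicator
        (fun c => μ (copy p c ∩ fewSet renormSet m p) / μ (copy p c)) c else 0 := by
    intro c
    rw [tsum_subtype {p | p ∈ periods c ∧ p₀ ≤ p} fun p => μ (few m p c) / μ (copy p c)]
    refine tsum_congr fun p => ?_
    by_cases h2 : p₀ ≤ p
    · rw [if_pos h2]
      by_cases h3 : p ∈ periods c
      · rw [indicator_of_mem (show p ∈ {p | p ∈ periods c ∧ p₀ ≤ p} from ⟨h3, h2⟩),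
          indicator_of_mem (show c ∈ renormSet p from h3), few_eq h3]
      · rw [indicator_of_notMem (show p ∉ {p | p ∈ periods c ∧ p₀ ≤ p} from fun h => h3 h.1),
          indicator_of_notMem (show c ∉ renormSet p from h3)]
    · rw [if_neg h2, indicator_of_notMem
        (show p ∉ {p | p ∈ periods c ∧ p₀ ≤ p} from fun h => h2 h.2)]
  simp only [h1]
  refine Measurable.tsum fun p => ?_
  by_cases h2 : p₀ ≤ p
  · simp only [if_pos h2]
    exact (nest μ).measurable_ratio (fewSet renormSet m p) p
  · simp only [if_neg h2]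
    exact measurable_const

theorem tsum_few_le (μ : Measure ℂ) [IsLocallyFiniteMeasure μ] (m : ℕ) (c : ℂ) :
    ∑' p : periods c, μ (few m p c) ≤ ((m : ℝ≥0∞) + 1) * μ (⋃ p, renormSet p) := by
  calc ∑' p : periods c, μ (few m p c)
      ≤ ∑' p : periods c, μ (univ ∩ fewSet renormSet m p) := by
        refine ENNReal.tsum_le_tsum fun p => measure_mono ?_
        rw [univ_inter]
        exact (few_subset p.2).trans inter_subset_right
    _ ≤ ∑' p, μ (univ ∩ fewSet renormSet m p) :=
        ENNReal.tsum_comp_le_tsum_of_injective Subtype.val_injective _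
    _ ≤ ((m : ℝ≥0∞) + 1) * μ ((univ ∩ ⋃ p, renormSet p) \ infSet renormSet) :=
        (nest μ).tsum_measure_fewSet_le m MeasurableSet.univ
    _ ≤ _ := by
        refine mul_le_mul_right (measure_mono ?_) _
        exact sdiff_subset.trans inter_subset_right

end Pool.Agent.H51.IR
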