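import Pool.Agent.H51.IR.Defs

set_option linter.style.longLine false

/-! Polynomial facts on the iterates of `z ^ 2 + c`. -/

namespace Pool.Agent.H51.IR

open Polynomial Filter Topology

theorem eval_iterPoly (c z : ℂ) (n : ℕ) : (iterPoly c n).eval z = (quad c)^[n] z := by
  induction n with
  | zero => simp [iterPoly]
  | succ n ih =>
    rw [Function.iterate_succ_apply', ← ih]
    simp [iterPoly, quad]

theorem iterPoly_add (c : ℂ) (m n : ℕ) (z : ℂ) :
    (iterPoly c (m + n)).eval z = (iterPoly c m).eval ((iterPoly c n).eval z) := by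
  rw [eval_iterPoly, eval_iterPoly, eval_iterPoly, Function.iterate_add_apply]

theorem natDegree_iterPoly (c : ℂ) (n : ℕ) : (iterPoly c n).natDegree = 2 ^ n := by
  induction n with
  | zero => simp [iterPoly]
  | succ n ih =>
    rw [iterPoly, natDegree_add_C, natDegree_pow, ih, pow_succ, mul_comm]

theorem monic_iterPoly (c : ℂ) (n : ℕ) : (iterPoly c n).Monic := by
  induction n with
  | zero => simp [iterPoly, monic_X]
  | succ n ih =>
    rw [iterPoly]
    refine (ih.pow 2).add_of_left ?_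
    refine lt_of_le_of_lt degree_C_le ?_
    rw [← natDegree_pos_iff_degree_pos, natDegree_pow, natDegree_iterPoly]
    positivity

theorem degree_iterPoly_pos (c : ℂ) (n : ℕ) : 0 < (iterPoly c n).degree := by
  rw [← natDegree_pos_iff_degree_pos, natDegree_iterPoly]
  positivity

/-- the cofactor of `X ^ 2 - y ^ 2` -/
noncomputable def cof (c y : ℂ) (p : ℕ) : ℂ[X] :=
  ∏ j ∈ Finset.Ico 1 p, (iterPoly c j + C ((quad c)^[j] y))

theorem factor (c y : ℂ) (p : ℕ) (hp : 1 ≤ p) :
    iterPoly c p - C ((quad c)^[p] y) = (X - C y) * (X - C (-y)) * cof c y p := by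
  induction p, hp using Nat.le_induction with
  | base =>
    simp only [iterPoly, cof, Finset.Ico_self, Finset.prod_empty, mul_one, Function.iterate_one,
      quad, C_add, C_pow, C_neg]
    ring
  | succ p hp ih =>
    have h1 : cof c y (p + 1) = cof c y p * (iterPoly c p + C ((quad c)^[p] y)) := by
      rw [cof, Finset.prod_Ico_succ_top hp, cof]
    rw [h1, ← mul_assoc, ← ih, Function.iterate_succ_apply']
    simp only [iterPoly, quad, C_add, C_pow]
    ring

theorem cof_ne_zero (c y : ℂ) (p : ℕ) : cof c y p ≠ 0 := by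
  rw [cof, Finset.prod_ne_zero_iff]
  intro j _ h
  have h1 : (iterPoly c j + C ((quad c)^[j] y)).natDegree = 2 ^ j := by
    rw [natDegree_add_C, natDegree_iterPoly]
  rw [h, natDegree_zero] at h1
  have : 0 < 2 ^ j := by positivity
  omega

theorem roots_factor (c y : ℂ) (p : ℕ) (hp : 1 ≤ p) :
    (iterPoly c p - C ((quad c)^[p] y)).roots = {y} + {-y} + (cof c y p).roots := by
  rw [factor c y p hp, roots_mul, roots_mul, roots_X_sub_C, roots_X_sub_C]
  · exact mul_ne_zero (X_sub_C_ne_zero _) (X_sub_C_ne_zero _)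
  · exact mul_ne_zero (mul_ne_zero (X_sub_C_ne_zero _) (X_sub_C_ne_zero _)) (cof_ne_zero _ _ _)

theorem mem_roots_cof (c x y : ℂ) (p : ℕ) :
    x ∈ (cof c y p).roots ↔ ∃ j, 1 ≤ j ∧ j < p ∧ (quad c)^[j] x + (quad c)^[j] y = 0 := by
  rw [mem_roots (cof_ne_zero c y p), IsRoot.def, cof, eval_prod, Finset.prod_eq_zero_iff]
  simp only [Finset.mem_Ico, eval_add, eval_C, eval_iterPoly, and_assoc]

open Classical in
theorem card_filter (c y : ℂ) (p : ℕ) (hp : 1 ≤ p) (U : Set ℂ) (hy : y ∈ U) (hy' : -y ∈ U) :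
    ((iterPoly c p - C ((quad c)^[p] y)).roots.filter (· ∈ U)).card =
      2 + ((cof c y p).roots.filter (· ∈ U)).card := by
  rw [roots_factor c y p hp, Multiset.filter_add, Multiset.filter_add, Multiset.filter_singleton,
    Multiset.filter_singleton, if_pos hy, if_pos hy', Multiset.card_add, Multiset.card_add]
  rfl

theorem quad_neg (c z : ℂ) : quad c (-z) = quad c z := by
  simp [quad]

theorem iterate_neg (c z : ℂ) (p : ℕ) (hp : 1 ≤ p) : (quad c)^[p] (-z) = (quad c)^[p] z := by
  obtain ⟨p, rfl⟩ := Nat.exists_eq_add_of_le' hp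
  rw [Function.iterate_succ_apply, Function.iterate_succ_apply, quad_neg]

/-- the derivative of the iterate -/
theorem derivative_iterPoly (c z : ℂ) (p : ℕ) :
    (derivative (iterPoly c p)).eval z = 2 ^ p * ∏ j ∈ Finset.range p, (quad c)^[j] z := by
  induction p with
  | zero => simp [iterPoly]
  | succ p ih =>
    rw [Finset.prod_range_succ, iterPoly]
    simp only [derivative_add, derivative_pow, derivative_C, add_zero, Nat.cast_ofNat,
      eval_mul, eval_pow, eval_C, ih, eval_iterPoly]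
    ring

theorem continuous_iterate : ∀ n : ℕ, Continuous fun q : ℂ × ℂ => (quad q.1)^[n] q.2
  | 0 => by simpa using continuous_snd
  | n + 1 => by
    simp only [Function.iterate_succ_apply', quad]
    exact ((continuous_iterate n).pow 2).add continuous_fst

theorem continuous_iterate_left (n : ℕ) (z : ℂ) : Continuous fun c : ℂ => (quad c)^[n] z :=
  (continuous_iterate n).comp (continuous_id.prodMk continuous_const)

theorem continuous_iterate_right (n : ℕ) (c : ℂ) : Continuous fun z : ℂ => (quad c)^[n] z :=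
  (continuous_iterate n).comp (continuous_const.prodMk continuous_id)

/-- escape -/
theorem escape {c : ℂ} (hc : 2 < ‖c‖) (n : ℕ) :
    ‖c‖ * (‖c‖ - 1) ^ n ≤ ‖(quad c)^[n + 1] 0‖ := by
  induction n with
  | zero => simp [quad]
  | succ n ih =>
    rw [Function.iterate_succ_apply']
    set w := (quad c)^[n + 1] 0
    have h0 : 1 ≤ (‖c‖ - 1) ^ n := one_le_pow₀ (by linarith)
    have h1 : ‖c‖ ≤ ‖w‖ := by nlinarith
    have h2 : ‖w‖ ^ 2 - ‖c‖ ≤ ‖quad c w‖ := by
      have : w ^ 2 = quad c w - c := by simp [quad]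
      have h3 := norm_sub_le (quad c w) c
      rw [← this, norm_pow] at h3
      linarith
    have h3 : ‖w‖ * (‖c‖ - 1) ≤ ‖w‖ ^ 2 - ‖c‖ := by nlinarith [norm_nonneg w]
    calc ‖c‖ * (‖c‖ - 1) ^ (n + 1) = (‖c‖ * (‖c‖ - 1) ^ n) * (‖c‖ - 1) := by ring
      _ ≤ ‖w‖ * (‖c‖ - 1) := mul_le_mul_of_nonneg_right ih (by linarith)
      _ ≤ _ := h3.trans h2

theorem norm_le_two_of_isRenorm {p : ℕ} {c : ℂ} (h : IsRenorm p c) : ‖c‖ ≤ 2 := by
  obtain ⟨hp, U, -, hU, hn, -⟩ := h
  by_contra hc
  push Not at hc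
  obtain ⟨B, hB⟩ := hU.isBounded.exists_norm_le
  have h1 : Tendsto (fun n : ℕ => ‖c‖ * (‖c‖ - 1) ^ n) atTop atTop :=
    (tendsto_pow_atTop_atTop_of_one_lt (by linarith)).const_mul_atTop (by linarith)
  obtain ⟨N, hN⟩ := (h1.eventually_gt_atTop B).exists_forall_of_atTop
  have h2 := hB _ (hn (N + 1) (by omega))
  have h3 : (N + 1) * p = ((N + 1) * p - 1) + 1 := by
    have : 0 < (N + 1) * p := by positivity
    omega
  rw [h3] at h2
  have h4 := escape hc ((N + 1) * p - 1)
  have h5 : N ≤ (N + 1) * p - 1 := by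
    have : (N + 1) * 1 ≤ (N + 1) * p := Nat.mul_le_mul_left _ (by omega)
    omega
  have h6 := hN _ h5
  linarith

end Pool.Agent.H51.IR
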