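import Pool.Agent.H51.IR.Poly

set_option linter.style.longLine false

/-! Topological facts on preimages of planar domains under polynomials. -/

namespace Pool.Agent.H51.IR

open Polynomial Filter Topology Set

theorem isOpenMap_eval {g : ℂ[X]} (hg : 0 < g.degree) : IsOpenMap fun z => g.eval z := by
  have h : AnalyticOnNhd ℂ (fun z => g.eval z) Set.univ := by
    intro z _
    exact (g.differentiable.analyticAt z)
  rcases h.is_constant_or_isOpenMap with ⟨w, hw⟩ | h
  · exfalso
    have : g = C w := by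
      apply Polynomial.funext
      intro z
      simpa using hw z
    rw [this] at hg
    exact absurd hg (not_lt.2 degree_C_le)
  · exact h

theorem isBounded_preimage {g : ℂ[X]} (hg : 0 < g.degree) {W : Set ℂ}
    (hW : Bornology.IsBounded W) : Bornology.IsBounded ((fun z => g.eval z) ⁻¹' W) := by
  obtain ⟨B, hB⟩ := hW.exists_norm_le
  have h1 : Tendsto (fun z : ℂ => ‖g.eval z‖) (Bornology.cobounded ℂ) atTop :=
    g.tendsto_norm_atTop hg tendsto_norm_cobounded_atTop
  rw [Bornology.isBounded_def]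
  filter_upwards [h1.eventually_gt_atTop B] with z hz hzW
  exact absurd (hB _ hzW) (not_le.2 hz)

theorem not_isBounded_compl {W : Set ℂ} (hW : Bornology.IsBounded W) :
    ¬ Bornology.IsBounded Wᶜ := by
  intro h
  have h2 : Bornology.IsBounded (univ : Set ℂ) := by
    rw [← union_compl_self W]
    exact hW.union h
  exact noncompact_univ ℂ (Metric.isCompact_of_isClosed_isBounded isClosed_univ h2)

theorem isPreconnected_exterior {ρ : ℝ} (hρ : 0 ≤ ρ) : IsPreconnected {z : ℂ | ρ < ‖z‖} := by
  have h1 : IsPreconnected (Ioi ρ ×ˢ Metric.sphere (0 : ℂ) 1) := by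
    refine isPreconnected_Ioi.prod (isPreconnected_sphere ?_ _ _)
    simp
  have h2 := h1.image (fun q : ℝ × ℂ => (q.1 : ℂ) * q.2) (by fun_prop)
  convert h2 using 1
  ext z
  simp only [mem_ofPred_eq, mem_image, mem_prod, mem_Ioi, Prod.exists, mem_sphere_iff_norm,
    sub_zero]
  constructor
  · intro hz
    have h0 : (‖z‖ : ℂ) ≠ 0 := by
      have : ‖z‖ ≠ 0 := by linarith
      exact_mod_cast this
    refine ⟨‖z‖, z / ‖z‖, ⟨hz, ?_⟩, ?_⟩
    · rw [norm_div, Complex.norm_real, norm_norm, div_self]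
      exact_mod_cast h0
    · field_simp
  · rintro ⟨r, u, ⟨hr, hu⟩, rfl⟩
    rw [norm_mul, hu, mul_one, Complex.norm_real, Real.norm_eq_abs]
    exact lt_of_lt_of_le hr (le_abs_self r)

/-- the preimage of the complement of a simply connected bounded domain is connected -/
theorem isPreconnected_preimage_compl {g : ℂ[X]} (hg : 0 < g.degree) {W : Set ℂ} (hWo : IsOpen W)
    (hWb : Bornology.IsBounded W) (hWc : IsPreconnected Wᶜ) :
    IsPreconnected ((fun z => g.eval z) ⁻¹' Wᶜ) := by
  set Q : Set ℂ := (fun z => g.eval z) ⁻¹' Wᶜ with hQ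
  have hQc : IsClosed Q := hWo.isClosed_compl.preimage g.continuous
  obtain ⟨ρ, hρ0, hρ⟩ : ∃ ρ : ℝ, 0 ≤ ρ ∧ {z : ℂ | ρ < ‖z‖} ⊆ Q := by
    obtain ⟨B, hB⟩ := (isBounded_preimage hg hWb).exists_norm_le
    refine ⟨max B 0, le_max_right _ _, fun z hz => ?_⟩
    intro hzW
    have h1 := hB z hzW
    have h2 : max B 0 < ‖z‖ := hz
    have := le_max_left B 0
    linarith
  have hE := isPreconnected_exterior hρ0
  have aux : ∀ t t' : Set ℂ, IsClosed t → IsClosed t' → Q ⊆ t ∪ t' → (Q ∩ t').Nonempty →
      {z : ℂ | ρ < ‖z‖} ∩ t' = ∅ → Q ∩ (t ∩ t') = ∅ → False := by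
    intro t t' ht ht' hcov hne hEt hdis
    have hB : IsCompact (Q ∩ t') := by
      refine Metric.isCompact_of_isClosed_isBounded (hQc.inter ht') ?_
      refine (Metric.isBounded_closedBall (x := (0 : ℂ)) (r := ρ)).subset fun z hz => ?_
      rw [mem_closedBall_zero_iff]
      by_contra hcon
      push Not at hcon
      have : z ∈ {z : ℂ | ρ < ‖z‖} ∩ t' := ⟨hcon, hz.2⟩
      rw [hEt] at this
      exact this
    have hBA : Q ∩ t' ⊆ (Q ∩ t)ᶜ := by
      rintro z ⟨hz1, hz2⟩ ⟨-, hz3⟩
      have : z ∈ Q ∩ (t ∩ t') := ⟨hz1, hz3, hz2⟩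
      rw [hdis] at this
      exact this
    obtain ⟨N, hNo, hBN, hNA, hNc⟩ :=
      exists_open_between_and_isCompact_closure hB (hQc.inter ht).isOpen_compl hBA
    have hsub : Wᶜ ⊆ (fun z => g.eval z) '' N := by
      refine hWc.subset_of_closure_inter_subset (isOpenMap_eval hg _ hNo) ?_ ?_
      · obtain ⟨b, hb⟩ := hne
        exact ⟨g.eval b, hb.1, b, hBN hb, rfl⟩
      · rintro w ⟨hw1, hw2⟩
        have h1 : w ∈ (fun z => g.eval z) '' closure N := by
          have := closure_minimal (image_mono (f := fun z => g.eval z) (subset_closure (s := N)))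
            (hNc.image g.continuous).isClosed
          exact this hw1
        obtain ⟨z, hz, rfl⟩ := h1
        have hzQ : z ∈ Q := hw2
        have hzt : z ∉ t := fun h => hNA hz ⟨hzQ, h⟩
        exact ⟨z, hBN ⟨hzQ, (hcov hzQ).resolve_left hzt⟩, rfl⟩
    refine not_isBounded_compl hWb (Bornology.IsBounded.subset ?_ hsub)
    exact ((hNc.image g.continuous).isBounded).subset (image_mono subset_closure)
  rw [isPreconnected_closed_iff]
  intro t t' ht ht' hcov hne hne'
  by_contra hcon
  rw [not_nonempty_iff_eq_empty] at hcon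
  rcases Set.eq_empty_or_nonempty ({z : ℂ | ρ < ‖z‖} ∩ t') with h1 | h1
  · exact aux t t' ht ht' hcov hne' h1 hcon
  rcases Set.eq_empty_or_nonempty ({z : ℂ | ρ < ‖z‖} ∩ t) with h2 | h2
  · refine aux t' t ht' ht (by rwa [union_comm]) hne h2 ?_
    rwa [inter_comm t' t]
  · have h3 := (isPreconnected_closed_iff.1 hE) t t' ht ht' (hρ.trans hcov) h2 h1
    obtain ⟨z, hz1, hz2⟩ := h3
    have : z ∈ Q ∩ (t ∩ t') := ⟨hρ hz1, hz2⟩
    rw [hcon] at this
    exact this

section box

variable {g : ℂ[X]} {L W : Set ℂ}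

theorem inter_eq (hL : IsCompact L) (hfr : ∀ z ∈ frontier L, g.eval z ∉ closure W) :
    interior L ∩ (fun z => g.eval z) ⁻¹' W = L ∩ (fun z => g.eval z) ⁻¹' W := by
  apply subset_antisymm (inter_subset_inter_left _ interior_subset)
  rintro z ⟨hz, hzW⟩
  refine ⟨?_, hzW⟩
  by_contra h
  refine hfr z ?_ (subset_closure hzW)
  rw [hL.isClosed.frontier_eq]
  exact ⟨hz, h⟩

/-- a part of the domain which is open and relatively closed maps onto `W` -/
theorem image_part (hg : 0 < g.degree) (hL : IsCompact L)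
    (hfr : ∀ z ∈ frontier L, g.eval z ∉ closure W) (hWc : IsPreconnected W) {V : Set ℂ}
    (hV : IsOpen V) (hVs : V ⊆ interior L ∩ (fun z => g.eval z) ⁻¹' W)
    (hVc : closure V ∩ (interior L ∩ (fun z => g.eval z) ⁻¹' W) ⊆ V) (hne : V.Nonempty) :
    (fun z => g.eval z) '' V = W := by
  apply subset_antisymm
  · rintro _ ⟨z, hz, rfl⟩
    exact (hVs hz).2
  · refine hWc.subset_of_closure_inter_subset (isOpenMap_eval hg _ hV) ?_ ?_
    · obtain ⟨z, hz⟩ := hne
      exact ⟨g.eval z, (hVs hz).2, z, hz, rfl⟩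
    · rintro w ⟨hw1, hw2⟩
      have hVL : closure V ⊆ L :=
        closure_minimal (fun z hz => interior_subset (hVs hz).1) hL.isClosed
      have hVcomp : IsCompact (closure V) := hL.of_isClosed_subset isClosed_closure hVL
      have h1 : w ∈ (fun z => g.eval z) '' closure V := by
        have := closure_minimal (image_mono (f := fun z => g.eval z) (subset_closure (s := V)))
          (hVcomp.image g.continuous).isClosed
        exact this hw1
      obtain ⟨z, hz, rfl⟩ := h1
      refine ⟨z, hVc ⟨hz, ?_⟩, rfl⟩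
      rw [inter_eq hL hfr]
      exact ⟨hVL hz, hw2⟩

theorem connectedComponentIn_closed {S : Set ℂ} {y : ℂ} :
    closure (connectedComponentIn S y) ∩ S ⊆ connectedComponentIn S y := by
  by_cases hy : y ∈ S
  · have h1 : IsPreconnected (closure (connectedComponentIn S y) ∩ S) :=
      (isPreconnected_connectedComponentIn).subset_closure
        (fun z hz => ⟨subset_closure hz, connectedComponentIn_subset _ _ hz⟩) inter_subset_left
    exact h1.subset_connectedComponentIn
      ⟨subset_closure (mem_connectedComponentIn hy), hy⟩ inter_subset_right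
  · rw [connectedComponentIn_eq_empty hy]
    simp

theorem isPreconnected_part (hg : 0 < g.degree) (hL : IsCompact L)
    (hfr : ∀ z ∈ frontier L, g.eval z ∉ closure W) (hWo : IsOpen W) (hWc : IsPreconnected W)
    (h0 : (0 : ℂ) ∈ interior L ∩ (fun z => g.eval z) ⁻¹' W)
    (hu : ∀ x ∈ L, g.eval x = g.eval 0 → x = 0) :
    IsPreconnected (interior L ∩ (fun z => g.eval z) ⁻¹' W) := by
  set U := interior L ∩ (fun z => g.eval z) ⁻¹' W with hU
  have hUo : IsOpen U := isOpen_interior.inter (hWo.preimage g.continuous)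
  refine isPreconnected_of_forall (0 : ℂ) fun y hy => ?_
  refine ⟨connectedComponentIn U y, connectedComponentIn_subset _ _, ?_,
    mem_connectedComponentIn hy, isPreconnected_connectedComponentIn⟩
  have h1 := image_part hg hL hfr hWc (V := connectedComponentIn U y) hUo.connectedComponentIn
    (connectedComponentIn_subset _ _) connectedComponentIn_closed ⟨y, mem_connectedComponentIn hy⟩
  have h2 : g.eval 0 ∈ (fun z => g.eval z) '' connectedComponentIn U y := by
    rw [h1]
    exact h0.2
  obtain ⟨x, hx, hx2⟩ := h2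
  have h3 := hu x (interior_subset (connectedComponentIn_subset _ _ hx).1) hx2
  rwa [← h3]

theorem isPreconnected_part_compl (hg : 0 < g.degree) (hL : IsCompact L)
    (hfr : ∀ z ∈ frontier L, g.eval z ∉ closure W) (hWo : IsOpen W)
    (hWb : Bornology.IsBounded W) (hWcc : IsConnected Wᶜ) :
    IsPreconnected (interior L ∩ (fun z => g.eval z) ⁻¹' W)ᶜ := by
  set U := interior L ∩ (fun z => g.eval z) ⁻¹' W with hU
  set Q : Set ℂ := (fun z => g.eval z) ⁻¹' Wᶜ with hQ
  have hQp : IsPreconnected Q := isPreconnected_preimage_compl hg hWo hWb hWcc.isPreconnected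
  have hQU : Q ⊆ Uᶜ := fun z hz hzU => hz hzU.2
  obtain ⟨x0, hx0⟩ : Q.Nonempty := by
    by_contra h
    rw [not_nonempty_iff_eq_empty] at h
    refine not_isBounded_compl (W := (∅ : Set ℂ)) Bornology.isBounded_empty ?_
    have h2 : (fun z => g.eval z) ⁻¹' W = univ := by
      rw [hQ, preimage_compl, compl_empty_iff] at h
      exact h
    rw [compl_empty, ← h2]
    exact isBounded_preimage hg hWb
  refine isPreconnected_of_forall x0 fun y hy => ?_
  by_cases hyW : g.eval y ∈ W
  swap
  · exact ⟨Q, hQU, hx0, hyW, hQp⟩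
  -- the component of `y` in `Y`
  set Y : Set ℂ := (fun z => g.eval z) ⁻¹' W ∩ Lᶜ with hY
  have hYo : IsOpen Y := (hWo.preimage g.continuous).inter hL.isClosed.isOpen_compl
  have hyY : y ∈ Y := by
    refine ⟨hyW, fun hyL => hy ?_⟩
    rw [hU, inter_eq hL hfr]
    exact ⟨hyL, hyW⟩
  set Y1 := connectedComponentIn Y y with hY1
  have hY1o : IsOpen Y1 := hYo.connectedComponentIn
  have hY1b : Bornology.IsBounded Y1 :=
    (isBounded_preimage hg hWb).subset fun z hz => (connectedComponentIn_subset _ _ hz).1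
  have hcl : closure Y1 ⊆ (interior L)ᶜ := by
    refine closure_minimal (fun z hz hzi => (connectedComponentIn_subset _ _ hz).2
      (interior_subset hzi)) isOpen_interior.isClosed_compl
  obtain ⟨q, hq1, hq2⟩ : ∃ q, q ∈ closure Y1 ∧ q ∉ Y1 := by
    by_contra h
    push Not at h
    have h1 : IsClosed Y1 := by
      rw [← closure_subset_iff_isClosed]
      exact h
    have h2 : Y1 = univ := IsClopen.eq_univ ⟨h1, hY1o⟩ ⟨y, mem_connectedComponentIn hyY⟩
    rw [h2] at hY1b
    refine not_isBounded_compl (W := (∅ : Set ℂ)) Bornology.isBounded_empty ?_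
    rwa [compl_empty]
  have hqQ : q ∈ Q := by
    intro hqW
    have hqW : g.eval q ∈ W := hqW
    apply hq2
    have hqY : q ∈ Y := by
      refine ⟨hqW, fun hqL => ?_⟩
      have h1 : q ∈ L ∩ (fun z => g.eval z) ⁻¹' W := ⟨hqL, hqW⟩
      rw [← inter_eq hL hfr] at h1
      exact hcl hq1 h1.1
    exact connectedComponentIn_closed ⟨hq1, hqY⟩
  refine ⟨closure Y1 ∪ Q, ?_, Or.inr hx0, Or.inl (subset_closure (mem_connectedComponentIn hyY)),
    ?_⟩
  · rintro z (hz | hz)
    · intro hzU
      exact hcl hz hzU.1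
    · exact hQU hz
  · exact IsPreconnected.union q hq1 hqQ isPreconnected_connectedComponentIn.closure hQp

end box

end Pool.Agent.H51.IR
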